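import Pool.Agent.H56.ASM.Sk15
import Pool.Agent.H95.TS.Ths

/-!
# The cells only where the target is steep and not static

`GainM`: as `GainV`, but at the windows with macroscopic gain the target is steep, has slope larger
than two and is not static. `LCellM n κ`: the cells at these windows, all classes. `classN_M`,
`lNor_M`: the assembly uses only these. `LCellB`: the cell of the third coordinate over two contact
coordinates, `n = 4`: the coordinate is static or the target is static; `lCellM_of`.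
-/

set_option autoImplicit false

namespace Pool.ASM

open MeasureTheory Set Filter Topology
open Pool.Agent.H49.Ent Pool.Agent.H32.Dense Pool.STK Pool.KA Pool.KSAT Pool.K2S Pool.PB
open Pool.GEN Pool.S6C Pool.GRW Pool.PKG Pool.STAT Pool.PM Pool.R1 Pool.Z4
open Pool.ONE (LocE Ext0 Ext rowN_of_ext)
open Pool.TOP (TopS rw_all)
open Pool.LEV (Law Lv)
open Pool.STR (TopW Mac StaAt IsoAt StaU1 ThinAt SteepAt)
open Pool.SW (ExV NoTie vAll_nt hc0_nt TopC NtO OneS)
open Pool.MV

variable {n : ℕ} {hn : 2 ≤ n} {S : PCl n} {P : ℝ → ℝ → ℝ} {r : ℝ → ℝ}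
  {P' : ℕ → List (Fin n) × Fin n → ℝ → ℝ → ℝ} {Λ : Finset (Fin n) → Fin n → ℝ → ℝ → ℝ}
  {PB : ℕ → List (Fin n) × Fin n → ℝ → ℝ → ℝ}

/-- **The windows with gain of the target** where it is steep and not static; or it is static and
the other coordinates of the base have slopes larger than one. -/
def GainM (hn : 2 ≤ n) (P : ℝ → ℝ → ℝ) (P' PB : ℕ → List (Fin n) × Fin n → ℝ → ℝ → ℝ) (o : Od n)
    (g : ℝ) : Prop :=
  (Mac (PT hn PB o) g ∧ SteepAt 2 (PT hn PB o) g ∧ 2 < deriv (fun a => P a a) g ∧ ¬ StaAt P g) ∨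
    StaAt P g ∧ 1 < deriv (fun a => P a a) g ∧ One1 hn P P' o g

theorem GainM.v {o : Od n} {g : ℝ} (h : GainM hn P P' PB o g) : GainV hn P P' PB o g := by
  rcases h with h | h
  · exact Or.inl h.1
  · exact Or.inr h

/-- **The cell `κ` of (D2)** at these windows, all classes. -/
def LCellM (n : ℕ) (κ : List Kd) : Prop := (∀ k, 2 ≤ k → k < n → Ext0 k) →
  Tol fun η => AllC n η fun {hn} {_} {P} {_} {P'} {_} {PB} H hTop hF h =>
    CellX H hTop hF h (GainM hn P P' PB) κ

theorem LCellV.m {n : ℕ} {κ : List Kd} (h : LCellV n κ) : LCellM n κ := fun hi => by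
  refine (h hi).mono fun η h1 => ?_
  intro hn hZ hF hTop D hD hD1 hE S P r P' Λ PB H
  exact (h1 hn hZ hF hTop D hD hD1 hE S P r P' Λ PB H).mono fun o g hx => hx.v

/-- (D2) for all places, from the cells. -/
theorem two_of_cellsM {n : ℕ} (hC : ∀ κ : List Kd, κ.length + 2 ≤ n → LCellM n (Kd.one :: κ))
    (hi : ∀ k, 2 ≤ k → k < n → Ext0 k) :
    Tol fun η => AllC n η fun {hn} {_} {P} {_} {P'} {_} {PB} H hTop hF h =>
      ∀ i, 1 ≤ i → i ≤ n - 1 → TwoX H hTop hF h (GainM hn P P' PB) i := by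
  have hfin := cells_fin n
  refine (Tol.fin fun κ : {κ : List Kd // κ.length + 2 ≤ n} => hC κ.1 κ.2 hi).mono fun η h => ?_
  intro hn hZ hF hTop D hD hD1 hE S P r P' Λ PB H i h1 h2
  exact twoX_of H hTop hF h1 h2 fun κ hκ =>
    h ⟨κ, by omega⟩ hn hZ hF hTop D hD hD1 hE S P r P' Λ PB H

/-- **`ClassN`** from `noBS` and (D2) for the places, at the windows where the target is steep and
not static. -/
theorem classN_M {H : PkT hn S P r P' Λ PB} {hTop : TopS n} {hF : FZX (n - 1)} {h : ℝ}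
    (noBS : ∃ p : ((H.nk hTop hF).chg (H.rle h) H.up).Par, p.cell.NoJS ∨ p.cell.NoBS)
    (hT : ∀ i, 1 ≤ i → i ≤ n - 1 → TwoX H hTop hF h (GainM hn P P' PB) i) :
    ClassN H hTop hF h := by
  refine ⟨noBS, fun o : Od n => ?_⟩
  have hlaw := H.tgs.law ()
  have hL : Law (PT hn PB o) := (H.nk hTop hF).hPT o
  filter_upwards [ths_big H hTop hF (h := h) o, H.mac_all H.pble hTop hF,
    STR.isoS_or_mac hL, STR.dia_ae hL, (H.nk hTop hF).derT_ae hlaw o,
    TwoX.big (fun i h1 h2 => hT i h1 (by omega)) o, hT (n - 1) (by omega) le_rfl o]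
    with g k0 k1 k3 k5 k4 k6 k7 R
  have hg0 := R.rwd.g0
  have hg1 := R.rwd.g1
  have hlt : PT hn PB o g g < 1 :=
    lt_of_le_of_lt (H.le o g g hg0 le_rfl hg1.le) R.rwd.val
  rcases k3 hg0 hg1 hlt with hiso | hmac
  · exact Or.inl hiso
  rcases k1 o R.rwd.mem with h1 | h1
  · exact Or.inl (STR.iso_of_thin hL hg0 hg1 hlt (k5 hg0 hg1)
      (fun a w a0 a1 a2 => H.le o a w a0 a1 a2) h1)
  have hder := (k4 R.rwd.mem hg0 hg1).2
  rcases le_or_gt (deriv (fun a => P a a) g) 2 with h2 | h2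
  · exact Or.inr (Or.inl (STR.sta_of_steep (k5 hg0 hg1) (hder.trans_le h2) h1))
  by_cases hst : StaAt P g
  · exact Or.inr (Or.inr ⟨hst, by linarith⟩)
  have hX : GainM hn P P' PB o g := Or.inl ⟨hmac, h1, h2, hst⟩
  have eL : LvL hn P P' o (n - 1) = P := by
    funext a w
    exact LvL_top o a w
  rw [eL, LvT_top] at k7
  exact Or.inr (Or.inr ⟨k7 R hX (k0 R (k6 R hX)) h2 h1, by linarith⟩)

/-- **The static chains** from their parts. -/
theorem lNor_M {n : ℕ} (hn4 : n ≤ 4)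
    (hC : ∀ κ : List Kd, κ.length + 2 ≤ n → LCellM n (Kd.one :: κ))
    (hA : n = 4 → LV0A n) (hB : n = 4 → LV0B n) (hE : LEx1 n) (hNb : n = 4 → LNb n)
    (hM : LMevD n) : LNor n := fun hi => by
  have hA' : Tol fun η => n = 4 → LocE n η MicRt →
      AllC n η fun {hn} {_} {P} {_} {P'} {_} {_} H hTop hF h =>
        ∀ o : Od n, ∀ᵐ g : ℝ, RwH H hTop hF h o g → 1 < deriv (fun a => P a a) g → StaAt P g →
        deriv (fun a => LL hn P P' o 2 a a) g ≤ 1 → 1 < deriv (fun a => LL hn P P' o 3 a a) g →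
        StaAt (LL hn P P' o 3) g := by
    by_cases h4 : n = 4
    · exact (hA h4 hi).mono fun η h _ => h
    · exact Tol.of_all fun _ _ _ h5 => absurd h5 h4
  have hB' : Tol fun η => n = 4 → LocE n η MicRt →
      AllC n η fun {hn} {_} {P} {_} {P'} {_} {_} H hTop hF h =>
        ∀ o : Od n, ∀ᵐ g : ℝ, RwH H hTop hF h o g → 1 < deriv (fun a => P a a) g → StaAt P g →
        deriv (fun a => LL hn P P' o 3 a a) g ≤ 1 → 1 < deriv (fun a => LL hn P P' o 2 a a) g →
        StaAt (LL hn P P' o 2) g := by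
    by_cases h4 : n = 4
    · exact (hB h4 hi).mono fun η h _ => h
    · exact Tol.of_all fun _ _ _ h5 => absurd h5 h4
  refine ((two_of_cellsM hC hi).and (hA'.and (hB'.and ((hM hi).and
    (Tol.le 1 one_pos))))).mono fun η h hMic => ?_
  obtain ⟨h1, h2, h3, h4, h6⟩ := h
  intro hn hZ hF hTop D hD hD1 hE' S P r P' Λ PB H
  have e1 := h6 D hD
  have hEA := hE hi hn hZ hF hTop
  obtain ⟨Y, hY, hMev⟩ := h4 hMic hn hZ hF hTop D hD hD1 hE' S P r P' Λ PB H
  refine nore_ind8 hMic hi hn hn4 hZ hF hTop hD hD1 e1.1 e1.2 hE' H ?_ (fun o => ?_)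
    (vAll_n Pool.VAS.micV hEA) (fun h5 => vAll_t Pool.VAS.micV hEA (topC_one n)
      (hNb h5 hi hn hZ hF hTop)) hY hMev
  · by_cases hn3 : n ≤ 3
    · exact v0C_three H hTop hF hn3
    · have h7 : n = 4 := by omega
      exact v0C_four H hTop hF h7 (h2 h7 hMic hn hZ hF hTop D hD hD1 hE' S P r P' Λ PB H)
        (h3 h7 hMic hn hZ hF hTop D hD hD1 hE' S P r P' Λ PB H)
  · filter_upwards [TwoX.big (fun i a1 a2 =>
      h1 hn hZ hF hTop D hD hD1 hE' S P r P' Λ PB H i a1 (by omega)) o] with g k1 R hS hst h8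
    exact k1 R (Or.inr ⟨hst, hS, h8⟩)

/-- **The third coordinate over two contact coordinates**, `n = 4`, at the windows where the target
is steep with slope larger than two: the coordinate is static or the target is static. -/
def LCellB : Prop := (∀ k, 2 ≤ k → k < 4 → Ext0 k) →
  Tol fun η => AllC 4 η fun {hn} {_} {P} {_} {P'} {_} {PB} H hTop hF h =>
    ∀ o : Od 4, ∀ᵐ g : ℝ, RwH H hTop hF h o g → Mac (PT hn PB o) g → SteepAt 2 (PT hn PB o) g →
      2 < deriv (fun a => P a a) g →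
      deriv (fun a => LvL hn P P' o 0 a a) g = 1 → deriv (fun a => LvL hn P P' o 1 a a) g = 1 →
      2 < deriv (fun a => LvL hn P P' o 2 a a) g → SteepAt 2 (LvT hn PB o 2) g →
      StaAt (LvL hn P P' o 2) g ∨ StaAt P g

theorem lCellM_of (hB : LCellB) : LCellM 4 [Kd.one, Kd.one] := fun hi => by
  refine (hB hi).mono fun η h1 => ?_
  intro hn hZ hF hTop D hD hD1 hE S P r P' Λ PB H o
  filter_upwards [h1 hn hZ hF hTop D hD hD1 hE S P r P' Λ PB H o] with g k R hX hth hkd hs hst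
  have e0 : deriv (fun a => LvL hn P P' o 0 a a) g = 1 := hkd 0 (by simp)
  have e1 : deriv (fun a => LvL hn P P' o 1 a a) g = 1 := hkd 1 (by simp)
  rcases hX with ⟨a1, a2, a3, a4⟩ | ⟨_, _, b3⟩
  · rcases k R a1 a2 a3 e0 e1 hs hst with h3 | h3
    · exact h3
    · exact absurd h3 a4
  · have h3 := b3 1 le_rfl (by omega)
    rw [← Pool.Z4.lvL_eq o (by omega : 1 ≤ 4 - 1), e1] at h3
    exact absurd h3 (lt_irrefl _)

end Pool.ASM
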