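import Pool.Agent.H40.ISO.Htf
import Pool.Agent.H91.LA.Fml

/-!
# The heights over reference charts from the own jets over closed charts

`hts_jet`: the digits of the heights of the own path over reference charts of any degree have few bits
given the code, the closed charts, the time and the digits of the own jets over the closed charts.
-/

set_option autoImplicit false

namespace Pool.STAT.OKI

open Finset MvPolynomial
open Pool.Agent.H49.Ent Pool.Agent.H32.Dense Pool.STK Pool.KS3 Pool.KA Pool.KSAT Pool.PB Pool.GEN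
open Pool.K2S Pool.S6C Pool.STAT.CLO Pool.STAT.Glu
open Pool.LA91 (lp jet ojet)

variable {m J : ℕ}

/-- **The digits of the jets of the own path** over the charts `G j' (zl ω)`, natural in the
windows. -/
noncomputable def jts (F : Fam m J) (c : ℕ → Fin m) (n K w₀ z j : ℕ) (d : ℕ → ℕ → ℕ) {V : Type}
    (G : ℕ → V → ℕ → MvPolynomial (Option (Fin m)) ℝ) (zl : F.Ω → V) (ω : F.Ω)
    (j' : Fin (j + 1)) (i : Fin (K + 2)) (l : Fin n) : ℤ :=
  ⌊(2 : ℝ) ^ d j' l / 2 ^ ((i : ℕ) * (w₀ + j' * z)) * ojet F (c l) i (G j' (zl ω) l) ω⌋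

/-- The own path over a chart, from its jets. -/
theorem ohg_jet {F : Fam m J} {c : ℕ → Fin m} {n w₀ : ℕ} {τ : ℝ}
    {G : ℕ → MvPolynomial (Option (Fin m)) ℝ} (hc : Inj c n) {l : ℕ} (hl : l < n)
    (hG : DepC c l (G l)) (t : ℝ) (ω : F.Ω) :
    ohg F c w₀ (sy c n τ G) t (l + 1) ω =
      (aeval (lp (bt F ω) (bd F ω)) (X (some (c l)) - G l)).eval (t - F.t ω) := by
  rw [Pool.LA91.eval_alp, map_sub, eval_X]
  unfold ohg
  rw [sy_succ hl, eval_tr (B := fun o => bt F ω o + (t - F.t ω) * bd F ω o) hc hl.le hG]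
  · congr 1
    rw [ptt_own]
    have e1 : xs F c ω (l + 1) = F.x ω (c l) := by
      unfold xs cx
      rw [if_neg (by omega)]
      show F.x ω (c (l + 1 - 1)) = F.x ω (c l)
      rw [Nat.add_sub_cancel]
    have e2 : vxs F c ω (l + 1) = F.d ω (c l) := by
      unfold vxs
      rw [if_neg (by omega), Nat.add_sub_cancel]
    rw [e1, e2]
    rfl
  · rw [ptt_own, xs_zero]
    have e2 : vxs F c ω 0 = 1 := if_pos rfl
    rw [e2]
    rfl
  · intro l' _
    rw [ptt_own]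
    have e1 : xs F c ω (l' + 1) = F.x ω (c l') := by
      unfold xs cx
      rw [if_neg (by omega)]
      show F.x ω (c (l' + 1 - 1)) = F.x ω (c l')
      rw [Nat.add_sub_cancel]
    have e2 : vxs F c ω (l' + 1) = F.d ω (c l') := by
      unfold vxs
      rw [if_neg (by omega), Nat.add_sub_cancel]
    rw [e1, e2]
    rfl

/-- Two polynomials with near derivatives at a point. -/
theorem near_jets {N w d : ℕ} {p p' : Polynomial ℝ} (hp : p.natDegree < N)
    (hp' : p'.natDegree < N) (h : ∀ i < N,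
      |(Polynomial.derivative^[i] p).eval 0 - (Polynomial.derivative^[i] p').eval 0| ≤
        2 ^ (i * w) / 2 ^ d) {s : ℝ} (hs : |s| ≤ 2 / 2 ^ w) :
    |p.eval s - p'.eval s| ≤ 2 ^ N / 2 ^ d := by
  obtain ⟨r, hr⟩ : ∃ r, r = p - p' := ⟨_, rfl⟩
  have hrN : r.natDegree < N := by
    rw [hr]
    exact (Polynomial.natDegree_sub_le _ _).trans_lt (max_lt hp hp')
  have hco : ∀ i < N, |r.coeff i| ≤ 2 ^ (i * w) / 2 ^ d := by
    intro i hi
    have h1 := h i hi
    rw [← Polynomial.eval_sub, ← Polynomial.iterate_derivative_sub, ← hr,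
      ← Polynomial.coeff_zero_eq_eval_zero, Polynomial.coeff_iterate_derivative, zero_add,
      Nat.descFactorial_self, nsmul_eq_mul, abs_mul] at h1
    refine le_trans (le_mul_of_one_le_left (abs_nonneg _) ?_) h1
    rw [abs_of_nonneg (Nat.cast_nonneg _)]
    exact_mod_cast Nat.factorial_pos i
  rw [← Polynomial.eval_sub, ← hr, Polynomial.eval_eq_sum_range' hrN]
  refine (Finset.abs_sum_le_sum_abs _ _).trans ?_
  have h2 : ∀ i ∈ range N, |r.coeff i * s ^ i| ≤ 2 ^ i / 2 ^ d := by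
    intro i hi
    rw [abs_mul, abs_pow]
    refine (mul_le_mul (hco i (Finset.mem_range.1 hi)) (pow_le_pow_left₀ (abs_nonneg _) hs i)
      (by positivity) (by positivity)).trans (le_of_eq ?_)
    rw [mul_comm i w, pow_mul, div_pow]
    field_simp
  refine (Finset.sum_le_sum h2).trans ?_
  rw [← Finset.sum_div]
  refine div_le_div_of_nonneg_right ?_ (by positivity)
  have h3 : ∀ N : ℕ, ∑ i ∈ range N, (2 : ℝ) ^ i ≤ 2 ^ N := by
    intro N
    induction N with
    | zero => simp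
    | succ N ih =>
      rw [Finset.sum_range_succ, pow_succ]
      linarith
  exact h3 N

/-- **The heights over reference charts have few bits** given the code, the closed charts, the time
and the digits of the own jets over the closed charts. -/
theorem hts_jet (n K : ℕ) : ∃ C : ℝ, 0 ≤ C ∧ ∀ {m J : ℕ} {F : Fam m J} {c : ℕ → Fin m}
    {w₀ z j x : ℕ} {y : ℝ} {d g₀ : ℕ → ℕ → ℕ} {W V : Type} {Rf : ℕ → W → ℕ → PN}
    {code : F.Ω → W} {G : ℕ → V → ℕ → MvPolynomial (Option (Fin m)) ℝ} {zl : F.Ω → V}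
    {q : F.Ω → ℝ}, IsLaw q → Inj c n → w₀ + j * z ≤ J → 0 ≤ y →
    (∀ j' ≤ j, ∀ v, Tr K (Rf j' v)) →
    (∀ j' ≤ j, ∀ v, ∀ l < n, (G j' v l).totalDegree ≤ K ∧ DepC c l (G j' v l)) →
    (∀ j' ≤ j, ∀ ω, 0 < q ω → NbP n (Wn (tw F (w₀ + j' * z) ω) (w₀ + j' * z))
      (fun l => g₀ j' (l - 1)) (Real.exp y)
      (sy c n (tw F (w₀ + j' * z) ω) (G j' (zl ω))) (Rf j' (code ω))) →
    (∀ j' ≤ j, ∀ ω, 0 < q ω → ∀ l, 1 ≤ l → l ≤ n → ∀ t : ℝ,
      Wn (tw F (w₀ + j' * z) ω) (w₀ + j' * z) t →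
      |ohg F c w₀ (sy c n (tw F (w₀ + j' * z) ω) (G j' (zl ω))) t l ω| ≤
        Real.exp y / 2 ^ g₀ j' (l - 1)) →
    (∀ j' ≤ j, ∀ l < n, ∀ k < l, d j' l + g₀ j' k ≤ g₀ j' l + d j' k + x) →
    CH q (hts F c n K w₀ z j d Rf code)
      (fun ω => (code ω, zl ω, F.T ω, jts F c n K w₀ z j d G zl ω)) ≤
      (j + 1) * (C * (y + x + 1)) := by
  classical
  obtain ⟨c₁, hc₁, hinc⟩ := incB n K
  have p1 : PBd fun Y => 2 * (((2 : ℝ) ^ (K + 2) + ((c₁ : ℝ) * Y) ^ c₁ * (Y * (2 ^ (K + 2) * Y))) + 1) +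
      1 :=
    ((PBd.const 2).mul (((PBd.const _).add ((PBd.id.loss c₁).mul (PBd.id.mul
      ((PBd.const _).mul PBd.id)))).add (PBd.const 1))).add (PBd.const 1)
  obtain ⟨c₇, hc₇, h7⟩ := p1
  have hc71 : (1 : ℝ) ≤ c₇ := by exact_mod_cast hc₇
  have hl7 : 0 ≤ Real.log c₇ := Real.log_nonneg hc71
  refine ⟨(K + 1) * (n * (c₇ * (Real.log c₇ + 1))), by positivity, ?_⟩
  intro m J F c w₀ z j x y d g₀ W V Rf code G zl q hq hc hwJ hy hRf hG hnb how hgx
  obtain ⟨Y, hY⟩ : ∃ Y : ℝ, Y = Real.exp y * 2 ^ x := ⟨_, rfl⟩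
  have hey : 1 ≤ Real.exp y := Real.one_le_exp hy
  have h2x := two_one x
  have hY1 : 1 ≤ Y := by
    rw [hY]
    exact one_le_mul_of_one_le_of_one_le hey h2x
  have hyY : Real.exp y ≤ Y := by
    rw [hY]
    exact le_mul_of_one_le_right (by linarith only [hey]) h2x
  have hxY : (2 : ℝ) ^ x ≤ Y := by
    rw [hY]
    exact le_mul_of_one_le_left (by linarith only [h2x]) hey
  obtain ⟨M, hM⟩ : ∃ M : ℝ, M = 2 ^ (K + 2) + ((c₁ : ℝ) * Y) ^ c₁ * (Y * (2 ^ (K + 2) * Y)) :=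
    ⟨_, rfl⟩
  have hM0 : 0 ≤ M := by rw [hM]; positivity
  have hlog : Real.log (2 * (M + 1) + 1) ≤ c₇ * (Real.log c₇ + 1) * (y + x + 1) := by
    have h1 := (le_abs_self _).trans (h7 Y hY1)
    beta_reduce at h1
    rw [← hM] at h1
    have h2 := Real.log_le_log (by linarith only [hM0]) h1
    rw [Real.log_pow, Real.log_mul (by linarith only [hc71]) (by linarith only [hY1])] at h2
    have h3 : Real.log Y ≤ y + x := by
      rw [hY, Real.log_mul (by positivity) (by positivity), Real.log_exp, Real.log_pow]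
      have : (x : ℝ) * Real.log 2 ≤ x * 1 := mul_le_mul_of_nonneg_left log2_le (Nat.cast_nonneg x)
      linarith only [this]
    refine h2.trans ?_
    rw [mul_assoc]
    refine mul_le_mul_of_nonneg_left ?_ (by linarith only [hc71])
    have hx0 : (0 : ℝ) ≤ x := Nat.cast_nonneg x
    have : 0 ≤ Real.log c₇ * (y + x) := by positivity
    nlinarith only [this, h3, hx0, hy]
  have hmain : CH q (hts F c n K w₀ z j d Rf code)
      (fun ω => (code ω, zl ω, F.T ω, jts F c n K w₀ z j d G zl ω)) ≤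
      (j + 1 : ℕ) * ((K + 1 : ℕ) * (n * Real.log (2 * (M + 1) + 1))) := by
    refine CH_pi_le hq.nonneg _ (j + 1) (fun j' ω => hts F c n K w₀ z j d Rf code ω j')
      fun j' => ?_
    refine CH_pi_le hq.nonneg _ (K + 1) (fun a ω => hts F c n K w₀ z j d Rf code ω j' a)
      fun a => ?_
    refine CH_pi_le hq.nonneg _ n (fun l ω => hts F c n K w₀ z j d Rf code ω j' a l) fun l => ?_
    have hj' : (j' : ℕ) ≤ j := by omega
    have ha : (a : ℕ) ≤ K := by omega
    have hl : (l : ℕ) < n := l.2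
    have hw : w₀ + j' * z ≤ J := (Nat.add_le_add_left (Nat.mul_le_mul_right z hj') w₀).trans hwJ
    refine Pool.OWN72.near_few hq (fun ω => ohg F c w₀ (Rf j' (code ω))
      (nod K (tw F (w₀ + j' * z) ω) (w₀ + j' * z) a) (l + 1) ω) _ ?_
    intro ω ω' hω hω' h
    obtain ⟨h1, h'⟩ := Prod.ext_iff.mp h
    obtain ⟨h2, h''⟩ := Prod.ext_iff.mp h'
    obtain ⟨h3, h4⟩ := Prod.ext_iff.mp h''
    simp only at h1 h2 h3 h4
    have eT : F.T1 (w₀ + j' * z) ω' = F.T1 (w₀ + j' * z) ω := by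
      unfold Fam.T1
      rw [h3]
    have e0 : tw F (w₀ + j' * z) ω' = tw F (w₀ + j' * z) ω := by
      unfold tw
      rw [eT]
    have et : F.t ω' = F.t ω := by
      unfold Fam.t
      rw [h3]
    show |ohg F c w₀ (Rf j' (code ω)) (nod K (tw F (w₀ + j' * z) ω) (w₀ + j' * z) a) (l + 1) ω -
      ohg F c w₀ (Rf j' (code ω')) (nod K (tw F (w₀ + j' * z) ω') (w₀ + j' * z) a) (l + 1) ω'| ≤ _
    have hTn := hnb j' hj' ω hω
    have o1 := how j' hj' ω hω
    have o2 := how j' hj' ω' hω'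
    rw [e0, ← h2] at o2
    rw [← h1, e0]
    obtain ⟨Ψ, hΨ⟩ : ∃ Ψ, Ψ = Rf j' (code ω) := ⟨_, rfl⟩
    have hTΨ : Tr K Ψ := by rw [hΨ]; exact hRf j' hj' _
    obtain ⟨Φ, hΦ⟩ : ∃ Φ, Φ = sy c n (tw F (w₀ + j' * z) ω) (G j' (zl ω)) := ⟨_, rfl⟩
    have hTΦ : Tr K Φ := by
      rw [hΦ]
      exact ⟨sy_tri, sy_deg fun i hi => (hG j' hj' _ i hi).1⟩
    rw [← hΨ, ← hΦ] at hTn
    rw [← hΦ] at o1 o2
    rw [← hΨ]
    obtain ⟨t, ht⟩ : ∃ t, t = nod K (tw F (w₀ + j' * z) ω) (w₀ + j' * z) a := ⟨_, rfl⟩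
    have htw : Wn (tw F (w₀ + j' * z) ω) (w₀ + j' * z) t := by rw [ht]; exact nod_win ha
    have hτ1 : |t - F.t ω| ≤ 2 / 2 ^ (w₀ + j' * z) := by
      rw [ht]
      exact nod_t hw ha ω
    rw [← ht]
    -- the heights over the closed charts
    have hcl : ∀ l' < n, |ohg F c w₀ Φ t (l' + 1) ω - ohg F c w₀ Φ t (l' + 1) ω'| ≤
        2 ^ (K + 2) / 2 ^ d j' l' := by
      intro l' hl'
      rw [hΦ, ohg_jet hc hl' (hG j' hj' _ l' hl').2, ohg_jet hc hl' (hG j' hj' _ l' hl').2, et]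
      have hdg : (X (some (c l')) - G j' (zl ω) l').totalDegree ≤ K + 1 :=
        (totalDegree_sub _ _).trans (max_le ((totalDegree_X _).le.trans (by omega))
          ((hG j' hj' _ l' hl').1.trans (Nat.le_succ K)))
      refine near_jets (w := w₀ + j' * z)
        (Nat.lt_succ_of_le (Pool.LA91.natDegree_alp hdg _ _))
        (Nat.lt_succ_of_le (Pool.LA91.natDegree_alp hdg _ _)) (fun i hi => ?_) hτ1
      have h5 := congrFun (congrFun (congrFun h4 j') ⟨i, hi⟩) ⟨l', hl'⟩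
      unfold jts at h5
      simp only at h5
      have h6 := (Int.abs_sub_lt_one_of_floor_eq_floor h5).le
      rw [← h2, ← mul_sub, abs_mul, abs_of_pos (by positivity), div_mul_eq_mul_div,
        div_le_one (by positivity)] at h6
      rw [le_div_iff₀ (by positivity), mul_comm]
      exact h6
    -- the heights over the reference charts
    obtain ⟨δ, hδ⟩ : ∃ δ : ℝ, δ = 2 ^ (K + 2) * 2 ^ x * 2 ^ g₀ j' l / 2 ^ d j' l := ⟨_, rfl⟩
    have hδ0 : 0 ≤ δ := by rw [hδ]; positivity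
    have e1 := hinc (P := Wn (tw F (w₀ + j' * z) ω) (w₀ + j' * z))
      (g := fun l => g₀ j' (l - 1)) (S := Real.exp y / 2 ^ g₀ j' l) (R := Real.exp y) (δ := δ)
      (Φ := Φ) (Q := Φ (l + 1) - Ψ (l + 1)) (l := l + 1) hTΦ (by omega)
      ((vars_sub_subset _).trans (Finset.union_subset (hTΦ.tri _) (hTΨ.tri _)))
      ((totalDegree_sub _ _).trans (max_le (hTΦ.deg _) (hTΨ.deg _))) hey (by positivity) hδ0
      (fun b hb => by
        rw [map_sub]
        have := hTn (l + 1) (by omega) (by omega) b hb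
        simpa only [Nat.add_sub_cancel] using this)
      (ptt (pc c (slam F w₀ ω)) t) (ptt (pc c (slam F w₀ ω')) t)
      ⟨by rw [ptt_own, xs_zero]; simpa [vxs] using htw, fun k k1 k2 => o1 k k1 (by omega) t htw⟩
      ⟨by rw [ptt_own, xs_zero]; simpa [vxs] using htw, fun k k1 k2 => o2 k k1 (by omega) t htw⟩
      (by rw [ptt_own, ptt_own, xs_zero, xs_zero]; simp [vxs])
      (fun k k1 k2 => by
        obtain ⟨k', rfl⟩ : ∃ k', k = k' + 1 := ⟨k - 1, by omega⟩
        refine (hcl k' (by omega)).trans ?_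
        simp only [Nat.add_sub_cancel]
        rw [hδ, div_div, div_le_div_iff₀ (by positivity) (by positivity)]
        have h8 : (2 : ℝ) ^ (d j' l + g₀ j' k') ≤ 2 ^ (g₀ j' l + d j' k' + x) :=
          pow_le_pow_right₀ (by norm_num) (hgx j' hj' l hl k' (by omega))
        rw [pow_add, pow_add, pow_add] at h8
        have h9 := mul_le_mul_of_nonneg_left h8 (by positivity : (0 : ℝ) ≤ 2 ^ (K + 2))
        calc (2 : ℝ) ^ (K + 2) * (2 ^ d j' l * 2 ^ g₀ j' k') ≤ _ := h9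
          _ = _ := by ring)
    rw [map_sub, map_sub] at e1
    have e2 := hcl l hl
    have e5 : ohg F c w₀ Ψ t (l + 1) ω - ohg F c w₀ Ψ t (l + 1) ω' =
        (ohg F c w₀ Φ t (l + 1) ω - ohg F c w₀ Φ t (l + 1) ω') +
        ((eval (ptt (pc c (slam F w₀ ω)) t) (Φ (l + 1)) -
          eval (ptt (pc c (slam F w₀ ω)) t) (Ψ (l + 1))) -
          (eval (ptt (pc c (slam F w₀ ω')) t) (Φ (l + 1)) -
          eval (ptt (pc c (slam F w₀ ω')) t) (Ψ (l + 1)))) := by
      unfold ohg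
      ring
    rw [e5]
    refine (abs_add_le _ _).trans ((add_le_add e2 e1).trans ?_)
    have e6 : ((c₁ : ℝ) * Real.exp y) ^ c₁ * (Real.exp y / 2 ^ g₀ j' l) * δ =
        ((c₁ : ℝ) * Real.exp y) ^ c₁ * (Real.exp y * (2 ^ (K + 2) * 2 ^ x)) / 2 ^ d j' l := by
      rw [hδ]
      field_simp
    rw [e6, ← add_div]
    refine div_le_div_of_nonneg_right ?_ (by positivity)
    rw [hM]
    gcongr
  refine hmain.trans ?_
  push_cast
  have hj0 : (0 : ℝ) ≤ (j : ℝ) + 1 := by positivity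
  refine mul_le_mul_of_nonneg_left ?_ hj0
  rw [mul_assoc, mul_assoc]
  refine mul_le_mul_of_nonneg_left ?_ (by positivity)
  exact mul_le_mul_of_nonneg_left hlog (Nat.cast_nonneg n)

end Pool.STAT.OKI
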